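import Pool.Agent.V11251.DPW
import Pool.Agent.V11251.CA.Basic
import Pool.Agent.V11251.CR.Top

set_option autoImplicit false
set_option linter.unusedVariables false
set_option linter.unusedSectionVars false

open FirstOrder TopologicalSpace

namespace Pool.Agent.Results.MP_50aa38_lc.RegNotFirstOrder

open Pool.Agent.V11251 Pool.Agent.V11251.CA Pool.Agent.V11251.CR

/-- The contact algebra `(B, C)` as a structure in the language `∨, ∧, complement, 0, 1, C`. -/
@[reducible] def caStr {B : Type} [BooleanAlgebra B] (C : B → B → Prop) : Lca.Structure B where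
  funMap := fun f v => match f, v with
    | CAFun.zero, _ => ⊥
    | CAFun.one, _ => ⊤
    | CAFun.compl, v => (v 0)ᶜ
    | CAFun.meet, v => v 0 ⊓ v 1
    | CAFun.join, v => v 0 ⊔ v 1
  RelMap := fun R v => match R, v with
    | CARel.contact, v => C (v 0) (v 1)

instance : Countable (Σ l, CAFun l) := by
  let c : (Σ l, CAFun l) → ℕ := fun f => match f with
    | ⟨_, CAFun.zero⟩ => 0
    | ⟨_, CAFun.one⟩ => 1
    | ⟨_, CAFun.compl⟩ => 2
    | ⟨_, CAFun.meet⟩ => 3
    | ⟨_, CAFun.join⟩ => 4
  refine (show Function.Injective c from ?_).countable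
  rintro ⟨_, _ | _ | _ | _ | _⟩ ⟨_, _ | _ | _ | _ | _⟩ h <;> first | rfl | exact absurd h (by decide)

instance : Countable (Σ l, CARel l) := by
  refine (show Function.Injective (fun _ : (Σ l, CARel l) => (0 : ℕ)) from ?_).countable
  rintro ⟨_, _ | _⟩ ⟨_, _ | _⟩ _
  rfl

theorem card_Lca : Lca.card ≤ Cardinal.aleph0 := by
  have : Countable Lca.Symbols := inferInstanceAs (Countable ((Σ l, CAFun l) ⊕ (Σ l, CARel l)))
  exact Cardinal.mk_le_aleph0_iff.2 this

instance : Infinite (Clopens XX) := by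
  have hI : Infinite Idx := inferInstanceAs (Infinite (ℕ → Bool))
  let A : Idx → Clopens XX := fun i =>
    ⟨(fun p : XX => p.2 i) ⁻¹' {0}, (isClopen_discrete _).preimage
      ((continuous_apply i).comp continuous_snd)⟩
  refine Infinite.of_injective A ?_
  classical
  intro i j hij
  by_contra hne
  have h1 : ((fun _ => OnePoint.infty, fun k => if k = i then 0 else 1) : XX) ∈ A i :=
    if_pos rfl
  rw [hij] at h1
  have h2 : (if j = i then (0 : Fin 3) else 1) = 0 := h1
  rw [if_neg (fun h => hne h.symm)] at h2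
  exact absurd h2 (by decide)

section transfer

variable {B : Type} [BooleanAlgebra B] (C : B → B → Prop)

theorem tf_compl {A : Set B} {α : Type} {g : (α → B) → B} (hg : @TF Lca B (caStr C) A α g) :
    @TF Lca B (caStr C) A α (fun w => (g w)ᶜ) :=
  letI := caStr C
  TF.fun₁ (L := Lca) CAFun.compl (fun a => aᶜ) (fun v => rfl) hg

theorem tf_bot {A : Set B} {α : Type} : @TF Lca B (caStr C) A α (fun w => ⊥) :=
  letI := caStr C
  TF.fun₀ (L := Lca) CAFun.zero ⊥ (fun v => rfl)

theorem tf_meet {A : Set B} {α : Type} {g h : (α → B) → B} (hg : @TF Lca B (caStr C) A α g)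
    (hh : @TF Lca B (caStr C) A α h) : @TF Lca B (caStr C) A α (fun w => g w ⊓ h w) :=
  letI := caStr C
  TF.fun₂ (L := Lca) CAFun.meet (fun a b => a ⊓ b) (fun v => rfl) hg hh

theorem dp_contact {A : Set B} {α : Type} {g h : (α → B) → B}
    (hg : @TF Lca B (caStr C) A α g) (hh : @TF Lca B (caStr C) A α h) :
    @DP Lca B (caStr C) A α (fun w => C (g w) (h w)) := by
  letI := caStr C
  obtain ⟨s, hs⟩ := hg
  obtain ⟨t, ht⟩ := hh
  refine ⟨Language.Relations.formula₂ (L := Lca) CARel.contact s t, fun v => ?_⟩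
  rw [Language.Formula.realize_rel₂, hs, ht]
  rfl

end transfer

/-- The regularity axiom is not expressible by first-order sentences in the language of contact
algebras: no set `T` of sentences (in particular no single sentence) holds in exactly those contact
algebras which satisfy it. -/
theorem result : ¬ ∃ T : Set Lca.Sentence, ∀ (B : Type) [BooleanAlgebra B] (C : B → B → Prop),
    IsContact C → ((∀ φ ∈ T, @Language.Sentence.Realize Lca B (caStr C) φ) ↔ Reg C) := by
  classical
  rintro ⟨T, hT⟩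
  letI : Lca.Structure (Clopens XX) := caStr CC
  have h1 : ¬ ∀ φ ∈ T, Language.Sentence.Realize (Clopens XX) φ := by
    rw [hT (Clopens XX) CC isContact]
    exact not_reg
  push Not at h1
  obtain ⟨φ, hφT, h1⟩ := h1
  -- a countable elementary substructure
  obtain ⟨S, -, hS⟩ := Language.exists_elementarySubstructure_card_eq Lca
    (∅ : Set (Clopens XX)) Cardinal.aleph0.{0} le_rfl (by simp) (by
      rw [Cardinal.lift_uzero, Cardinal.lift_uzero]
      exact card_Lca) (by
      rw [Cardinal.lift_uzero, Cardinal.lift_uzero]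
      exact Cardinal.aleph0_le_mk _)
  rw [Cardinal.lift_uzero, Cardinal.lift_uzero] at hS
  have hSc : Countable S := Cardinal.mk_le_aleph0_iff.1 hS.le
  have hmem : ∀ {n : ℕ} (f : Lca.Functions n) (x : Fin n → Clopens XX), (∀ i, x i ∈ S) →
      Language.Structure.funMap f x ∈ S := fun f x hx => S.toSubstructure.fun_mem f x hx
  have hbot : (⊥ : Clopens XX) ∈ S := hmem CAFun.zero ![] (fun i => i.elim0)
  have htop : (⊤ : Clopens XX) ∈ S := hmem CAFun.one ![] (fun i => i.elim0)
  have hcompl : ∀ a ∈ S, aᶜ ∈ S := fun a ha => hmem CAFun.compl ![a] (by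
    intro i; fin_cases i; exact ha)
  have hinf : ∀ a ∈ S, ∀ b ∈ S, a ⊓ b ∈ S := fun a ha b hb => hmem CAFun.meet ![a, b] (by
    intro i; fin_cases i; exacts [ha, hb])
  have hsup : ∀ a ∈ S, ∀ b ∈ S, a ⊔ b ∈ S := fun a ha b hb => hmem CAFun.join ![a, b] (by
    intro i; fin_cases i; exacts [ha, hb])
  let B₀ : BooleanSubalgebra (Clopens XX) :=
    { carrier := {a | a ∈ S}
      supClosed' := fun a ha b hb => hsup a ha b hb
      infClosed' := fun a ha b hb => hinf a ha b hb
      compl_mem' := fun {a} ha => hcompl a ha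
      bot_mem' := hbot }
  let C₀ : B₀ → B₀ → Prop := fun a b => CC a b
  have hB₀c : Countable B₀ := hSc
  have hC₀ : IsContact C₀ := by
    refine ⟨fun a b h => ?_, fun a b c => ?_, fun a b h => isContact.symm _ _ h, fun a b h => ?_⟩
    · obtain ⟨h2, h3⟩ := isContact.ne_bot _ _ h
      exact ⟨fun h4 => h2 (congrArg Subtype.val h4), fun h4 => h3 (congrArg Subtype.val h4)⟩
    · exact isContact.sup _ _ _
    · exact isContact.of_meet _ _ fun h4 => h (Subtype.ext h4)
  have hΦ : Phi C₀ := by
    intro a b c d hab hcd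
    have hDP : DP Lca (∅ : Set (Clopens XX)) (fun w : Option (Fin 4) → Clopens XX =>
        ¬ CC (w none) (w none)ᶜ ∧ CC (w (some 0) ⊓ w none) (w (some 1)) ∧
          (w none ⊓ w (some 2) = ⊥ ∨ w none ⊓ w (some 3) = ⊥)) := by
      refine DP.and (DP.not (dp_contact CC (TF.var none) (tf_compl CC (TF.var none))))
        (DP.and (dp_contact CC (tf_meet CC (TF.var _) (TF.var _)) (TF.var _))
          (DP.or (DP.eq (tf_meet CC (TF.var _) (TF.var _)) (tf_bot CC))
            (DP.eq (tf_meet CC (TF.var _) (TF.var _)) (tf_bot CC))))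
    obtain ⟨f, hf, hf1, hf2, hf3⟩ := DP.witness (α := Fin 4)
      (P := fun v f => ¬ CC f fᶜ ∧ CC (v 0 ⊓ f) (v 1) ∧ (f ⊓ v 2 = ⊥ ∨ f ⊓ v 3 = ⊥)) hDP S
      (![⟨a, a.2⟩, ⟨b, b.2⟩, ⟨c, c.2⟩, ⟨d, d.2⟩] : Fin 4 → S) (phi a b c d hab hcd)
    refine ⟨⟨f, hf⟩, hf1, hf2, ?_⟩
    rcases hf3 with h | h
    · exact Or.inl (Subtype.ext h)
    · exact Or.inr (Subtype.ext h)
  have h2 : @Language.Sentence.Realize Lca B₀ (caStr C₀) φ :=
    (hT B₀ C₀ hC₀).2 (reg_of_countable hC₀ hΦ) φ hφT
  -- the two structures on `S` agree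
  letI : Lca.Structure B₀ := caStr C₀
  let e : B₀ ≃[Lca] S :=
    { toFun := fun a => ⟨a, a.2⟩
      invFun := fun a => ⟨a, a.2⟩
      left_inv := fun a => rfl
      right_inv := fun a => rfl
      map_fun' := by
        intro n f x
        apply Subtype.ext
        cases f <;> rfl
      map_rel' := by
        intro n r x
        cases r
        exact Iff.rfl }
  have h3 : Language.Sentence.Realize S φ :=
    (Language.StrongHomClass.realize_sentence e φ).1 h2
  rw [S.realize_sentence] at h3
  exact h1 h3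

end Pool.Agent.Results.MP_50aa38_lc.RegNotFirstOrder
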